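import Pool.Agent.Q131.Lie.FinConj

/-!
# MP_646617_gt: finite spectral determination for quotients of compact symmetric spaces

Every compact symmetric space `X = G/K` has property (F).  In fact this holds for every compact
Riemannian manifold `X` and every compact Lie group `G` acting smoothly on `X` by Riemannian
isometries.
-/

set_option linter.unusedSectionVars false

namespace Pool.Agent.Results.MP_646617_gt.AllHavePropertyF

open scoped Manifold ContDiff Topology ENNReal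
open MeasureTheory Bundle

noncomputable section

variable {E : Type*} [NormedAddCommGroup E] [NormedSpace ℝ E]
  {H : Type*} [TopologicalSpace H] (I : ModelWithCorners ℝ E H)
  {X : Type*} [MetricSpace X] [MeasurableSpace X] [BorelSpace X] [ChartedSpace H X]
  [RiemannianBundle (fun (x : X) ↦ TangentSpace I x)]

/-- The Riemannian volume of `X`, realised as the `n`-dimensional Hausdorff measure of the
Riemannian distance, `n = dim X` (the two agree up to a constant factor depending only on `n`, which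
plays no role in Rayleigh quotients). -/
def vol (E : Type*) [NormedAddCommGroup E] [NormedSpace ℝ E] (X : Type*) [MetricSpace X]
    [MeasurableSpace X] [BorelSpace X] : Measure X :=
  Measure.hausdorffMeasure (Module.finrank ℝ E : ℝ)

/-- The Dirichlet energy `∫ |df|²` of a function. -/
def energy (f : X → ℝ) : ℝ := ∫ x, ‖mfderiv I 𝓘(ℝ, ℝ) f x‖ ^ 2 ∂(vol E X)

/-- `∫ f²`. -/
def normSq (E : Type*) [NormedAddCommGroup E] [NormedSpace ℝ E] {X : Type*} [MetricSpace X]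
    [MeasurableSpace X] [BorelSpace X] (f : X → ℝ) : ℝ := ∫ x, f x ^ 2 ∂(vol E X)

variable {G : Type*} [Group G] [MulAction G X]

/-- The `j`-th eigenvalue (counted with multiplicity, starting with `j = 0`) of the
Laplace-Beltrami operator on the `Γ`-invariant smooth functions on `X`, given by the
Courant-Fischer min-max principle. -/
def lam (Γ : Subgroup G) (j : ℕ) : ℝ :=
  sInf {c : ℝ | ∃ V : Submodule ℝ (X → ℝ), Module.finrank ℝ V = j + 1 ∧
    (∀ f ∈ V, ContMDiff I 𝓘(ℝ, ℝ) ∞ f) ∧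
    (∀ f ∈ V, ∀ γ ∈ Γ, ∀ x, f (γ • x) = f x) ∧
    ∀ f ∈ V, energy I f ≤ c * normSq E f}

variable (X G) in
/-- Property (F): for every `ε > 0` there is `N` such that for all finite subgroups `Γ₁, Γ₂` of
`G` with `1/|Γᵢ| > ε`, the quotients are isospectral iff their first `N` eigenvalues agree. -/
def PropertyF : Prop :=
  ∀ ε : ℝ, 0 < ε → ∃ N : ℕ, ∀ Γ₁ Γ₂ : Subgroup G, Finite Γ₁ → Finite Γ₂ →
    ε < 1 / (Nat.card Γ₁ : ℝ) → ε < 1 / (Nat.card Γ₂ : ℝ) →
    ((∀ j, lam (X := X) I Γ₁ j = lam (X := X) I Γ₂ j) ↔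
      ∀ j < N, lam (X := X) I Γ₁ j = lam (X := X) I Γ₂ j)

section

variable [IsManifold I 1 X] [IsRiemannianManifold I X]
  (hsm : ∀ g : G, ContMDiff I I ∞ (fun x : X => g • x))
  (hiso : ∀ (g : G) (x : X) (v : TangentSpace I x), ‖mfderiv I I (fun y : X => g • y) x v‖ = ‖v‖)

include hsm hiso

lemma edist_le (g : G) (x y : X) : edist (g • x) (g • y) ≤ edist x y := by
  rw [IsRiemannianManifold.out (I := I) x y, IsRiemannianManifold.out (I := I) (g • x) (g • y)]
  apply le_of_forall_gt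
  intro r hr
  obtain ⟨γ, h0, h1, hγ, hlen, _, _⟩ :=
    Manifold.exists_lt_locally_constant_of_riemannianEDist_lt hr (zero_lt_one (α := ℝ))
  have hsm1 : ContMDiff I I 1 (fun x : X => g • x) := (hsm g).of_le (by simp)
  have hc : ContMDiff 𝓘(ℝ, ℝ) I 1 (fun t => g • γ t) := hsm1.comp hγ
  have hle := Manifold.riemannianEDist_le_pathELength (I := I) (γ := fun t => g • γ t) (a := 0)
    (b := 1) (x := g • x) (y := g • y) hc.contMDiffOn (by simp [h0]) (by simp [h1]) zero_le_one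
  refine lt_of_le_of_lt hle (lt_of_eq_of_lt ?_ hlen)
  rw [Manifold.pathELength_eq_lintegral_mfderiv_Icc, Manifold.pathELength_eq_lintegral_mfderiv_Icc]
  congr 1
  funext t
  have hd1 : MDifferentiableAt 𝓘(ℝ, ℝ) I γ t := (hγ t).mdifferentiableAt (by simp)
  have hd2 : MDifferentiableAt I I (fun x : X => g • x) (γ t) :=
    (hsm1 (γ t)).mdifferentiableAt (by simp)
  have : mfderiv 𝓘(ℝ, ℝ) I (fun t => g • γ t) t =
      (mfderiv I I (fun x : X => g • x) (γ t)).comp (mfderiv 𝓘(ℝ, ℝ) I γ t) :=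
    mfderiv_comp t hd2 hd1
  rw [this]
  simp only [ContinuousLinearMap.comp_apply]
  rw [← ofReal_norm, ← ofReal_norm]
  congr 1
  exact hiso g (γ t) _

lemma isom (g : G) : Isometry (fun x : X => g • x) := by
  intro x y
  apply le_antisymm (edist_le I hsm hiso g x y)
  have := edist_le I hsm hiso g⁻¹ (g • x) (g • y)
  simpa using this

lemma mp (g : G) : MeasurePreserving (fun x : X => g • x) (vol E X) (vol E X) := by
  let e : X ≃ᵢ X := ⟨MulAction.toPerm g, isom I hsm hiso g⟩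
  exact e.measurePreserving_hausdorffMeasure _

lemma norm_le (g : G) (f : X → ℝ) (hf : ContMDiff I 𝓘(ℝ, ℝ) ∞ f) (x : X) :
    ‖mfderiv I 𝓘(ℝ, ℝ) (fun y => f (g • y)) x‖ ≤ ‖mfderiv I 𝓘(ℝ, ℝ) f (g • x)‖ := by
  have hd1 : MDifferentiableAt I I (fun y : X => g • y) x := ((hsm g) x).mdifferentiableAt (by simp)
  have hd2 : MDifferentiableAt I 𝓘(ℝ, ℝ) f (g • x) := (hf (g • x)).mdifferentiableAt (by simp)
  have : mfderiv I 𝓘(ℝ, ℝ) (fun y => f (g • y)) x =
      (mfderiv I 𝓘(ℝ, ℝ) f (g • x)).comp (mfderiv I I (fun y : X => g • y) x) :=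
    mfderiv_comp x hd2 hd1
  rw [this]
  refine ContinuousLinearMap.opNorm_le_bound _ (ContinuousLinearMap.opNorm_nonneg _) ?_
  intro v
  rw [ContinuousLinearMap.comp_apply]
  refine le_trans (ContinuousLinearMap.le_opNorm _ _) ?_
  rw [hiso g x v]

omit [MeasurableSpace X] [BorelSpace X] [IsManifold I 1 X] [IsRiemannianManifold I X] hsm hiso in
lemma nm_congr {f f' : X → ℝ} {x x' : X} (h : f = f') (h' : x = x') :
    ‖mfderiv I 𝓘(ℝ, ℝ) f x‖ = ‖mfderiv I 𝓘(ℝ, ℝ) f' x'‖ := by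
  subst h; subst h'; rfl

lemma norm_eq (g : G) (f : X → ℝ) (hf : ContMDiff I 𝓘(ℝ, ℝ) ∞ f) (x : X) :
    ‖mfderiv I 𝓘(ℝ, ℝ) (fun y => f (g • y)) x‖ = ‖mfderiv I 𝓘(ℝ, ℝ) f (g • x)‖ := by
  apply le_antisymm (norm_le I hsm hiso g f hf x)
  have h1 : ContMDiff I 𝓘(ℝ, ℝ) ∞ (fun y => f (g • y)) := hf.comp (hsm g)
  have h2 := norm_le I hsm hiso g⁻¹ (fun y => f (g • y)) h1 (g • x)
  have e : (fun y => f (g • (g⁻¹ • y))) = f := by funext y; rw [smul_inv_smul]
  have e2 : g⁻¹ • (g • x) = x := inv_smul_smul g x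
  calc ‖mfderiv I 𝓘(ℝ, ℝ) f (g • x)‖
      = ‖mfderiv I 𝓘(ℝ, ℝ) (fun y => f (g • (g⁻¹ • y))) (g • x)‖ := nm_congr I e.symm rfl
    _ ≤ ‖mfderiv I 𝓘(ℝ, ℝ) (fun y => f (g • y)) (g⁻¹ • (g • x))‖ := h2
    _ = ‖mfderiv I 𝓘(ℝ, ℝ) (fun y => f (g • y)) x‖ := nm_congr I rfl e2

lemma energy_comp (g : G) (f : X → ℝ) (hf : ContMDiff I 𝓘(ℝ, ℝ) ∞ f) :
    energy I (fun x => f (g • x)) = energy I f := by
  unfold energy
  simp only [norm_eq I hsm hiso g f hf]
  let e : X ≃ᵢ X := ⟨MulAction.toPerm g, isom I hsm hiso g⟩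
  have h := (mp I hsm hiso g).integral_comp e.toHomeomorph.measurableEmbedding
    (fun x => ‖mfderiv I 𝓘(ℝ, ℝ) f x‖ ^ 2)
  exact h

lemma normSq_comp (g : G) (f : X → ℝ) : normSq E (fun x => f (g • x)) = normSq E f := by
  unfold normSq
  let e : X ≃ᵢ X := ⟨MulAction.toPerm g, isom I hsm hiso g⟩
  have h := (mp I hsm hiso g).integral_comp e.toHomeomorph.measurableEmbedding
    (fun x => f x ^ 2)
  exact h

/-- translation of functions -/
def tr (g : G) : (X → ℝ) ≃ₗ[ℝ] (X → ℝ) :=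
  LinearEquiv.funCongrLeft ℝ ℝ (MulAction.toPerm g)

omit [IsManifold I 1 X] [IsRiemannianManifold I X] hsm hiso in
lemma tr_apply (g : G) (f : X → ℝ) (x : X) : tr g f x = f (g • x) := rfl

lemma lam_set_subset (Γ : Subgroup G) (g : G) (j : ℕ) (c : ℝ)
    (hc : ∃ V : Submodule ℝ (X → ℝ), Module.finrank ℝ V = j + 1 ∧
      (∀ f ∈ V, ContMDiff I 𝓘(ℝ, ℝ) ∞ f) ∧
      (∀ f ∈ V, ∀ γ ∈ Γ, ∀ x, f (γ • x) = f x) ∧
      ∀ f ∈ V, energy I f ≤ c * normSq E f) :
    ∃ V : Submodule ℝ (X → ℝ), Module.finrank ℝ V = j + 1 ∧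
      (∀ f ∈ V, ContMDiff I 𝓘(ℝ, ℝ) ∞ f) ∧
      (∀ f ∈ V, ∀ γ ∈ Γ.map (MulAut.conj g).toMonoidHom, ∀ x, f (γ • x) = f x) ∧
      ∀ f ∈ V, energy I f ≤ c * normSq E f := by
  obtain ⟨V, h1, h2, h3, h4⟩ := hc
  refine ⟨V.map (tr g⁻¹ : (X → ℝ) ≃ₗ[ℝ] (X → ℝ)).toLinearMap, ?_, ?_, ?_, ?_⟩
  · rw [← h1]; exact LinearEquiv.finrank_map_eq (tr g⁻¹) V
  · rintro _ ⟨f, hf, rfl⟩
    exact (h2 f hf).comp (hsm g⁻¹)
  · rintro _ ⟨f, hf, rfl⟩ _ ⟨γ, hγ, rfl⟩ x
    change f (g⁻¹ • ((g * γ * g⁻¹) • x)) = f (g⁻¹ • x)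
    rw [smul_smul]
    have : g⁻¹ * (g * γ * g⁻¹) = γ * g⁻¹ := by group
    rw [this, mul_smul]
    exact h3 f hf γ hγ _
  · rintro _ ⟨f, hf, rfl⟩
    change energy I (fun x => f (g⁻¹ • x)) ≤ c * normSq E (fun x => f (g⁻¹ • x))
    rw [energy_comp I hsm hiso g⁻¹ f (h2 f hf), normSq_comp I hsm hiso g⁻¹ f]
    exact h4 f hf

lemma lam_conj (Γ : Subgroup G) (g : G) (j : ℕ) :
    lam (X := X) I (Γ.map (MulAut.conj g).toMonoidHom) j = lam (X := X) I Γ j := by
  unfold lam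
  congr 1
  ext c
  constructor
  · intro hc
    have := lam_set_subset I hsm hiso (Γ.map (MulAut.conj g).toMonoidHom) g⁻¹ j c hc
    have e : (Γ.map (MulAut.conj g).toMonoidHom).map (MulAut.conj g⁻¹).toMonoidHom = Γ := by
      rw [Subgroup.map_map]
      have : (MulAut.conj g⁻¹).toMonoidHom.comp (MulAut.conj g).toMonoidHom = MonoidHom.id G := by
        ext x
        simp
        group
      rw [this, Subgroup.map_id]
    rwa [e] at this
  · exact lam_set_subset I hsm hiso Γ g j c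

end

/-- Finitely many real sequences are separated by finitely many terms. -/
lemma separate {S : Set (ℕ → ℝ)} (hS : S.Finite) :
    ∃ N : ℕ, ∀ s ∈ S, ∀ t ∈ S, (∀ j < N, s j = t j) → s = t := by
  classical
  have h : ∀ p : (ℕ → ℝ) × (ℕ → ℝ), ∃ n : ℕ, p.1 ≠ p.2 → p.1 n ≠ p.2 n := by
    intro p
    by_cases hp : p.1 = p.2
    · exact ⟨0, fun h => absurd hp h⟩
    · obtain ⟨n, hn⟩ := Function.ne_iff.mp hp
      exact ⟨n, fun _ => hn⟩
  choose n hn using h
  have hfin : (S ×ˢ S).Finite := hS.prod hS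
  obtain ⟨N, hN⟩ := (hfin.image n).bddAbove
  refine ⟨N + 1, fun s hs t ht hst => ?_⟩
  by_contra hne
  have h1 := hn (s, t) hne
  have h2 : n (s, t) ≤ N := hN ⟨(s, t), ⟨hs, ht⟩, rfl⟩
  exact h1 (hst _ (by omega))

end

/-- **MP_646617_gt, Q1.**  Let `X` be a compact Riemannian manifold and `G` a compact Lie group
acting smoothly on `X` by Riemannian isometries (for instance `X = G/K` any compact symmetric space,
of any rank).  Then property (F) holds. -/
theorem result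
    -- the compact Riemannian manifold `X`
    {E : Type*} [NormedAddCommGroup E] [NormedSpace ℝ E] [FiniteDimensional ℝ E]
    {H : Type*} [TopologicalSpace H] (I : ModelWithCorners ℝ E H) [I.Boundaryless]
    (X : Type*) [MetricSpace X] [CompactSpace X] [MeasurableSpace X] [BorelSpace X]
    [ChartedSpace H X] [IsManifold I ∞ X] [RiemannianBundle (fun (x : X) ↦ TangentSpace I x)]
    [IsContMDiffRiemannianBundle I ∞ E (fun (x : X) ↦ TangentSpace I x)]
    [IsRiemannianManifold I X]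
    -- the compact Lie group `G`
    {E' : Type*} [NormedAddCommGroup E'] [NormedSpace ℝ E'] [FiniteDimensional ℝ E']
    {H' : Type*} [TopologicalSpace H'] (I' : ModelWithCorners ℝ E' H') [I'.Boundaryless]
    (G : Type*) [Group G] [TopologicalSpace G] [T2Space G] [CompactSpace G] [ChartedSpace H' G]
    [LieGroup I' ∞ G] [MulAction G X]
    -- the action is smooth and by Riemannian isometries
    (hsmooth : ContMDiff (I'.prod I) I ∞ (fun p : G × X => p.1 • p.2))
    (hiso : ∀ (g : G) (x : X) (v : TangentSpace I x),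
      ‖mfderiv I I (fun y : X => g • y) x v‖ = ‖v‖) :
    PropertyF I X G := by
  have hsm : ∀ g : G, ContMDiff I I ∞ (fun x : X => g • x) := fun g =>
    hsmooth.comp (contMDiff_const.prodMk contMDiff_id)
  have : CompleteSpace E' := FiniteDimensional.complete ℝ E'
  intro ε hε
  obtain ⟨n, hn⟩ := exists_nat_gt (1 / ε)
  have hfin := Pool.Agent.Q131.Lie.finite_values I' (G := G)
    (fun Γ => (fun j => lam (X := X) I Γ j)) (fun Γ g => funext fun j => lam_conj I hsm hiso Γ g j) n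
  obtain ⟨N, hN⟩ := separate hfin
  have hcard : ∀ Γ : Subgroup G, Finite Γ → ε < 1 / (Nat.card Γ : ℝ) → Nat.card Γ ≤ n := by
    intro Γ hΓ h
    have hpos : 0 < (Nat.card Γ : ℝ) := by exact_mod_cast Nat.card_pos
    have h2 : (Nat.card Γ : ℝ) < 1 / ε := by
      rw [lt_div_iff₀ hpos] at h
      rw [lt_div_iff₀ hε]
      linarith
    exact_mod_cast (h2.trans hn).le
  refine ⟨N, fun Γ₁ Γ₂ h1 h2 h3 h4 => ⟨fun h j _ => h j, fun h j => ?_⟩⟩
  have := hN _ ⟨Γ₁, h1, hcard Γ₁ h1 h3, rfl⟩ _ ⟨Γ₂, h2, hcard Γ₂ h2 h4, rfl⟩ h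
  exact congrFun this j

end Pool.Agent.Results.MP_646617_gt.AllHavePropertyF
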